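import Mathlib
import Pool.Agent.R206.Bous.Crit

namespace Pool.Agent.Results.MP_de0dde_an.TwoPoints

open Set
open scoped ContDiff

/-- A Schwartz class solution of `u_tt = u_xx + (u^2)_xx + u_xxxx` on `ℝ × [0,T)`. -/
structure IsSchwartzSolution (T : ℝ) (u : ℝ → ℝ → ℝ) : Prop where
  smooth : ContDiffOn ℝ ∞ (fun p : ℝ × ℝ => u p.1 p.2) (univ ×ˢ Ico 0 T)
  eqn : ∀ x : ℝ, ∀ t ∈ Ico 0 T,
    iteratedDerivWithin 2 (fun s => u x s) (Ico 0 T) t =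
      iteratedDeriv 2 (fun y => u y t) x + iteratedDeriv 2 (fun y => (u y t) ^ 2) x
        + iteratedDeriv 4 (fun y => u y t) x
  decay : ∀ N : ℕ, ∀ τ ∈ Ico 0 T, ∃ C : ℝ, ∀ x : ℝ, ∀ t ∈ Icc 0 τ,
    ∑ i ∈ Finset.range (N + 1), (1 + |x|) ^ N * |iteratedDeriv i (fun y => u y t) x| ≤ C

/-- `u` is unbounded near `(x₀, T)`. -/
def UnboundedNear (T : ℝ) (u : ℝ → ℝ → ℝ) (x₀ : ℝ) : Prop :=
  ∀ ε : ℝ, 0 < ε → ∀ M : ℝ, ∃ x t : ℝ, |x - x₀| < ε ∧ T - ε < t ∧ 0 ≤ t ∧ t < T ∧ M < |u x t|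

/-- Affirmative answer to Q1 for every `T`, with the two points prescribed. -/
theorem result : ∀ T : ℝ, 0 < T → ∀ x₁ x₂ : ℝ, x₁ ≠ x₂ → ∃ u : ℝ → ℝ → ℝ,
    IsSchwartzSolution T u ∧ UnboundedNear T u x₁ ∧ UnboundedNear T u x₂ := by
  intro T hT x₁ x₂ hne
  obtain ⟨u, hu, c₁, c₂, τ, hc₁, hc₂, hτ, hτT, h⟩ := Pool.Agent.R206.Bous.critical hT hne
  have hr : ∀ x : ℝ, (x = x₁ ∨ x = x₂) → UnboundedNear T u x := by
    intro x hx ε hε M
    set ρ := min (min (ε / 2) (T - τ)) (c₁ / (|M| + 1)) with hρ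
    have hρ0 : 0 < ρ := lt_min (lt_min (by positivity) (by linarith)) (by positivity)
    have h1 : ρ ≤ ε / 2 := (min_le_left _ _).trans (min_le_left _ _)
    have h2 : ρ ≤ T - τ := (min_le_left _ _).trans (min_le_right _ _)
    have h3 : ρ ≤ c₁ / (|M| + 1) := min_le_right _ _
    refine ⟨x, T - ρ, by simpa using hε, by linarith, by linarith, by linarith, ?_⟩
    obtain ⟨h4, _⟩ := h (T - ρ) (by linarith) (by linarith) x hx
    have e : T - (T - ρ) = ρ := by ring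
    rw [e] at h4
    refine lt_of_lt_of_le ?_ (h4.trans (le_abs_self _))
    rw [lt_div_iff₀ hρ0]
    rw [le_div_iff₀ (by positivity)] at h3
    have := le_abs_self M
    nlinarith
  exact ⟨u, ⟨hu.smooth, hu.eqn, hu.decay⟩, hr x₁ (Or.inl rfl), hr x₂ (Or.inr rfl)⟩

end Pool.Agent.Results.MP_de0dde_an.TwoPoints
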